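import Pool.Agent.TAM.Phase

open MeasureTheory Filter Topology Real Metric FourierTransform
open scoped ENNReal NNReal InnerProductSpace

namespace TAM

open Helper77.TA

variable {V : Type*} [NormedAddCommGroup V] [InnerProductSpace ℝ V] [FiniteDimensional ℝ V]
  [MeasurableSpace V] [BorelSpace V]

/-- A representative of the Fourier transform supported in the ball. -/
theorem exists_rep {ρ : ℝ} (f : L2 V) (hf : ∀ᵐ ξ, (𝓕 f : L2 V) ξ ≠ 0 → ‖ξ‖ ≤ ρ) :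
    ∃ g : V → ℂ, Integrable g ∧ MemLp g 2 ∧ (∀ ξ, g ξ ≠ 0 → ‖ξ‖ ≤ ρ) ∧
      g =ᵐ[volume] ((𝓕 f : L2 V) : V → ℂ) ∧ (f : V → ℂ) =ᵐ[volume] 𝓕⁻ g ∧
      ∀ y ω x, wave f ρ y ω x = 𝓕⁻ (damp g ω ρ y) x := by
  set P : Set V := {ξ | ‖ξ‖ ≤ ρ} with hP
  have hPm : MeasurableSet P := (isClosed_le continuous_norm continuous_const).measurableSet
  have hPb : P ⊆ closedBall 0 ρ := by
    intro ξ hξ
    have h : ‖ξ‖ ≤ ρ := hξ
    simpa using h
  have hPfin : volume P ≠ ∞ := ((measure_mono hPb).trans_lt measure_closedBall_lt_top).ne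
  set g₀ : V → ℂ := ((𝓕 f : L2 V) : V → ℂ) with hg₀
  set g : V → ℂ := P.indicator g₀ with hg
  have hgae : g =ᵐ[volume] g₀ := by
    filter_upwards [hf] with ξ hξ
    by_cases h0 : g₀ ξ = 0
    · rw [hg, h0, Set.indicator_apply_eq_zero]
      intro _; exact h0
    · rw [hg, Set.indicator_of_mem]
      exact hξ h0
  have h2' : MemLp g₀ 2 := Lp.memLp _
  have h2 : MemLp g 2 := h2'.indicator hPm
  have h1 : Integrable g := by
    rw [hg, integrable_indicator_iff hPm]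
    have h3 : MemLp g₀ 2 (volume.restrict P) := h2'.restrict P
    have : IsFiniteMeasure (volume.restrict P) := ⟨by simpa using hPfin.lt_top⟩
    exact h3.integrable (by norm_num)
  have hgP : ∀ ξ, g ξ ≠ 0 → ‖ξ‖ ≤ ρ := by
    intro ξ hξ
    by_contra hcon
    exact hξ (by rw [hg, Set.indicator_of_notMem (by simpa [hP] using hcon)])
  refine ⟨g, h1, h2, hgP, hgae, ?_, ?_⟩
  · have e1 : h2.toLp g = (𝓕 f : L2 V) := by
      apply Lp.ext
      exact h2.coeFn_toLp.trans hgae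
    have e2 := fourierInv_toLp_ae h1 h2
    rw [e1] at e2
    have e3 : (𝓕⁻ (𝓕 f : L2 V) : L2 V) = f := FourierTransform.fourierInv_fourier_eq f
    rw [e3] at e2
    exact e2
  · intro y ω x
    rw [fourierInv_formula, wave]
    apply integral_congr_ae
    filter_upwards [hgae] with ξ hξ
    rw [damp, hξ]

omit [NormedAddCommGroup V] [InnerProductSpace ℝ V] [FiniteDimensional ℝ V] [BorelSpace V] in
theorem lintegral_sq_eq (f : V → ℂ) (μ : Measure V) :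
    ∫⁻ x, ‖f x‖ₑ ^ 2 ∂μ = eLpNorm f 2 μ ^ 2 := by
  have e := eLpNorm_nnreal_pow_eq_lintegral (f := f) (p := 2) (μ := μ) two_ne_zero
  norm_num at e
  rw [← e]

/-- Jensen's inequality in phase space. -/
theorem phase_ball {ι : Type*} [Fintype ι] (ω : ι → V) (hω : ∀ j, ‖ω j‖ = 1) {ρ : ℝ}
    {E : Set V} (hE : MeasurableSet E) {y a : ℝ} (hy : 0 < y) (ha0 : 0 < a) (ha1 : a < 1)
    (hd : ∀ j, ∀ᵐ x, a ≤ angle.real {θ | x - bdry y θ • ω j ∈ E})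
    (f : L2 V) (hf : ∀ᵐ ξ, (𝓕 f : L2 V) ξ ≠ 0 → ‖ξ‖ ≤ ρ)
    {p : ι → V → ℝ≥0∞} (hp : ∀ j, Measurable (p j)) :
    ∑ j, ∫⁻ x, p j x * ‖wave f ρ y (ω j) x‖ₑ ^ 2 ≤ ENNReal.ofReal (exp 1) *
      ((∫⁻ v in E, mult p ω y v * ‖f v‖ₑ ^ 2) ^ a *
        (∫⁻ v, mult p ω y v * ‖f v‖ₑ ^ 2) ^ (1 - a)) := by
  obtain ⟨g, h1, h2, hgP, hgae, hFf, hwave⟩ := exists_rep f hf
  have key := phase_aux h1 ω hω hgP hE hy ha0 ha1 hd hp
  have e1 : ∀ μ : Measure V, μ ≪ volume → ∫⁻ v, mult p ω y v * ‖f v‖ₑ ^ 2 ∂μ =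
      ∫⁻ v, mult p ω y v * ‖𝓕⁻ g v‖ₑ ^ 2 ∂μ := by
    intro μ hμ
    apply lintegral_congr_ae
    filter_upwards [hμ.ae_le hFf] with v hv
    rw [hv]
  rw [e1 volume Measure.AbsolutelyContinuous.rfl,
    e1 (volume.restrict E) Measure.restrict_le_self.absolutelyContinuous]
  simp only [hwave]
  exact key

/-- The waves carry the mass of `f`. -/
theorem mass_lower {ι : Type*} [Fintype ι] (ω : ι → V) (hω : ∀ j, ‖ω j‖ = 1) {ρ c₀ y : ℝ}
    (hy : 0 < y) (f : L2 V)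
    (hf : ∀ᵐ ξ, (𝓕 f : L2 V) ξ ≠ 0 → ‖ξ‖ ≤ ρ ∧ ∃ j, ρ - c₀ ≤ ⟪ξ, ω j⟫_ℝ) :
    ∫⁻ v, ‖f v‖ₑ ^ 2 ≤ ENNReal.ofReal (exp (4 * π * y * c₀)) *
      ∑ j, ∫⁻ x, ‖wave f ρ y (ω j) x‖ₑ ^ 2 := by
  obtain ⟨g, h1, h2, hgP, hgae, hFf, hwave⟩ :=
    exists_rep f (hf.mono fun ξ hξ h0 => (hξ h0).1)
  have hs : ∀ j ξ, g ξ ≠ 0 → 0 ≤ ρ - ⟪ξ, ω j⟫_ℝ := by
    intro j ξ hξ
    have hb := hgP ξ hξ
    have h3 := abs_le.mp (abs_real_inner_le_norm ξ (ω j))
    rw [hω j, mul_one] at h3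
    linarith [h3.2]
  have hm : ∀ j, AEStronglyMeasurable (damp g (ω j) ρ y) volume := fun j =>
    (continuous_dampFactor (ω j) ρ y).aestronglyMeasurable.mul h1.aestronglyMeasurable
  have d1 : ∀ j, Integrable (damp g (ω j) ρ y) := fun j =>
    Integrable.mono h1 (hm j) (Eventually.of_forall (norm_damp_le hy.le (hs j)))
  have d2 : ∀ j, MemLp (damp g (ω j) ρ y) 2 := fun j =>
    h2.mono (hm j) (Eventually.of_forall (norm_damp_le hy.le (hs j)))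
  simp only [hwave]
  have e1 : ∫⁻ v, ‖f v‖ₑ ^ 2 = ∫⁻ ξ, ‖g ξ‖ₑ ^ 2 := by
    rw [← plancherel h1 h2]
    apply lintegral_congr_ae
    filter_upwards [hFf] with v hv
    rw [hv]
  have e2 : ∀ j, ∫⁻ x, ‖𝓕⁻ (damp g (ω j) ρ y) x‖ₑ ^ 2 = ∫⁻ ξ, ‖damp g (ω j) ρ y ξ‖ₑ ^ 2 :=
    fun j => plancherel (d1 j) (d2 j)
  rw [e1, Finset.sum_congr rfl fun j _ => e2 j]
  have hmm : ∀ j, AEMeasurable (fun ξ => ‖damp g (ω j) ρ y ξ‖ₑ ^ 2) volume := fun j =>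
    (hm j).enorm.pow_const 2
  rw [← lintegral_finsetSum' _ fun j _ => hmm j,
    ← lintegral_const_mul'' _ (Finset.aemeasurable_fun_sum _ fun j _ => hmm j)]
  apply lintegral_mono_ae
  filter_upwards [hf, hgae] with ξ hξ hgξ
  by_cases h0 : g ξ = 0
  · simp [h0]
  · obtain ⟨_, j, hj⟩ := hξ (by rw [← hgξ]; exact h0)
    have e1 : ‖g ξ‖ₑ ^ 2 ≤ ENNReal.ofReal (exp (4 * π * y * c₀)) *
        ‖damp g (ω j) ρ y ξ‖ₑ ^ 2 := by
      rw [← ofReal_norm, ← ofReal_norm, ← ENNReal.ofReal_pow (norm_nonneg _),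
        ← ENNReal.ofReal_pow (norm_nonneg _), ← ENNReal.ofReal_mul (exp_pos _).le]
      apply ENNReal.ofReal_le_ofReal
      rw [damp, norm_mul, Complex.norm_real, Real.norm_of_nonneg (exp_pos _).le, mul_pow,
        ← mul_assoc, ← Real.exp_nat_mul, ← Real.exp_add]
      have e2 : 1 ≤ Real.exp (4 * π * y * c₀ +
          ((2 : ℕ) : ℝ) * -(2 * π * y * (ρ - ⟪ξ, ω j⟫_ℝ))) := by
        apply Real.one_le_exp
        have e3 : 4 * π * y * c₀ + ((2 : ℕ) : ℝ) * -(2 * π * y * (ρ - ⟪ξ, ω j⟫_ℝ)) =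
          4 * π * y * (c₀ - (ρ - ⟪ξ, ω j⟫_ℝ)) := by push_cast; ring
        rw [e3]
        have : 0 ≤ c₀ - (ρ - ⟪ξ, ω j⟫_ℝ) := by linarith
        positivity
      nlinarith [sq_nonneg ‖g ξ‖]
    refine e1.trans ?_
    gcongr
    exact Finset.single_le_sum (f := fun j => ‖damp g (ω j) ρ y ξ‖ₑ ^ 2)
      (fun _ _ => zero_le) (Finset.mem_univ j)

/-- Bounded local multiplicity of the wave packets gives a uniform constant. -/
theorem local_mult {ι : Type*} [Fintype ι] (ω : ι → V) (hω : ∀ j, ‖ω j‖ = 1) {ρ c₀ : ℝ}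
    {E : Set V} (hE : MeasurableSet E) {y a : ℝ} (hy : 0 < y) (ha0 : 0 < a) (ha1 : a < 1)
    (hd : ∀ j, ∀ᵐ x, a ≤ angle.real {θ | x - bdry y θ • ω j ∈ E})
    (f : L2 V)
    (hf : ∀ᵐ ξ, (𝓕 f : L2 V) ξ ≠ 0 → ‖ξ‖ ≤ ρ ∧ ∃ j, ρ - c₀ ≤ ⟪ξ, ω j⟫_ℝ)
    {p : ι → V → ℝ≥0∞} (hp : ∀ j, Measurable (p j)) {M q : ℝ} (hq : 0 < q)
    (hM : ∀ᵐ v, mult p ω y v ≤ ENNReal.ofReal M)
    (hpq : ENNReal.ofReal q * ∑ j, ∫⁻ x, ‖wave f ρ y (ω j) x‖ₑ ^ 2 ≤
      ∑ j, ∫⁻ x, p j x * ‖wave f ρ y (ω j) x‖ₑ ^ 2) :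
    eLpNorm f 2 volume ≤ ENNReal.ofReal ((M / q * exp (1 + 4 * π * y * c₀)) ^ (1 / (2 * a))) *
      eLpNorm f 2 (volume.restrict E) := by
  have h1 := mass_lower ω hω hy f hf
  have h2 := phase_ball ω hω hE hy ha0 ha1 hd f (hf.mono fun ξ hξ h0 => (hξ h0).1) hp
  set W : ℝ≥0∞ := ∑ j, ∫⁻ x, ‖wave f ρ y (ω j) x‖ₑ ^ 2 with hW
  set X : ℝ≥0∞ := ∫⁻ v, ‖f v‖ₑ ^ 2 with hX
  set Y : ℝ≥0∞ := ∫⁻ v in E, ‖f v‖ₑ ^ 2 with hY
  have hXY : X = eLpNorm f 2 volume ^ 2 := lintegral_sq_eq _ _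
  have hYY : Y = eLpNorm f 2 (volume.restrict E) ^ 2 := lintegral_sq_eq _ _
  have hXfin : X ≠ ∞ := by
    rw [hXY]
    exact ENNReal.pow_ne_top (Lp.eLpNorm_ne_top f)
  have hfm : AEMeasurable (fun v => ‖f v‖ₑ ^ 2) volume :=
    (Lp.stronglyMeasurable f).measurable.enorm.pow_const 2 |>.aemeasurable
  have h3 : ∀ μ : Measure V, μ ≤ volume → ∫⁻ v, mult p ω y v * ‖f v‖ₑ ^ 2 ∂μ ≤
      ENNReal.ofReal M * ∫⁻ v, ‖f v‖ₑ ^ 2 ∂μ := by
    intro μ hμ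
    rw [← lintegral_const_mul'' _ (hfm.mono_measure hμ)]
    apply lintegral_mono_ae
    filter_upwards [(ae_mono hμ) hM] with v hv
    gcongr
  have h4 : ENNReal.ofReal q * W ≤ ENNReal.ofReal (exp 1) *
      ((ENNReal.ofReal M * Y) ^ a * (ENNReal.ofReal M * X) ^ (1 - a)) := by
    refine hpq.trans (h2.trans ?_)
    have h5 := h3 _ (Measure.restrict_le_self (s := E))
    have h6 := h3 _ (le_refl volume)
    have h7 : (0 : ℝ) ≤ 1 - a := by linarith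
    gcongr
  have h8 : (ENNReal.ofReal M * Y) ^ a * (ENNReal.ofReal M * X) ^ (1 - a) =
      ENNReal.ofReal M * (Y ^ a * X ^ (1 - a)) := by
    have h9 : ENNReal.ofReal M ^ a * ENNReal.ofReal M ^ (1 - a) = ENNReal.ofReal M := by
      rcases eq_or_ne (ENNReal.ofReal M) 0 with h0 | h0
      · rw [h0, ENNReal.zero_rpow_of_pos ha0, zero_mul]
      · rw [← ENNReal.rpow_add _ _ h0 ENNReal.ofReal_ne_top]
        simp
    rw [ENNReal.mul_rpow_of_nonneg _ _ ha0.le,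
      ENNReal.mul_rpow_of_nonneg _ _ (by linarith : (0 : ℝ) ≤ 1 - a)]
    calc _ = (ENNReal.ofReal M ^ a * ENNReal.ofReal M ^ (1 - a)) * (Y ^ a * X ^ (1 - a)) := by ring
      _ = _ := by rw [h9]
  rw [h8] at h4
  have hq' : ENNReal.ofReal q ≠ 0 := by simpa using hq
  by_cases hM0 : M ≤ 0
  · -- degenerate case
    have : ENNReal.ofReal M = 0 := by simpa using hM0
    rw [this, zero_mul, mul_zero] at h4
    have h5 : W = 0 := by
      have := le_antisymm h4 zero_le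
      rcases mul_eq_zero.mp this with h6 | h6
      · exact absurd h6 hq'
      · exact h6
    rw [h5, mul_zero] at h1
    have h6 : X = 0 := le_antisymm h1 zero_le
    rw [hXY] at h6
    have h7 : eLpNorm f 2 volume = 0 := by simpa using h6
    rw [h7]
    exact zero_le
  push Not at hM0
  set B : ℝ := M / q * exp (1 + 4 * π * y * c₀) with hB
  have hB0 : 0 < B := by positivity
  have h10 : X ≤ ENNReal.ofReal B * (Y ^ a * X ^ (1 - a)) := by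
    have h11 : W ≤ (ENNReal.ofReal q)⁻¹ * (ENNReal.ofReal (exp 1) *
        (ENNReal.ofReal M * (Y ^ a * X ^ (1 - a)))) := by
      calc W = (ENNReal.ofReal q)⁻¹ * (ENNReal.ofReal q * W) := by
            rw [← mul_assoc, ENNReal.inv_mul_cancel hq' ENNReal.ofReal_ne_top, one_mul]
        _ ≤ _ := by gcongr
    have h12 : ENNReal.ofReal B = ENNReal.ofReal (exp (4 * π * y * c₀)) *
        ((ENNReal.ofReal q)⁻¹ * (ENNReal.ofReal (exp 1) * ENNReal.ofReal M)) := by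
      rw [← ENNReal.ofReal_inv_of_pos hq, ← ENNReal.ofReal_mul (exp_pos _).le,
        ← ENNReal.ofReal_mul (by positivity), ← ENNReal.ofReal_mul (exp_pos _).le]
      congr 1
      rw [hB, Real.exp_add]
      field_simp
    calc X ≤ ENNReal.ofReal (exp (4 * π * y * c₀)) * W := h1
      _ ≤ ENNReal.ofReal (exp (4 * π * y * c₀)) * ((ENNReal.ofReal q)⁻¹ *
          (ENNReal.ofReal (exp 1) * (ENNReal.ofReal M * (Y ^ a * X ^ (1 - a))))) := by gcongr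
      _ = _ := by rw [h12]; ring
  have key2 := absorb ha0 ha1 hXfin h10
  have e8 : ENNReal.ofReal (B ^ (1 / (2 * a))) ^ 2 = ENNReal.ofReal B ^ (1 / a) := by
    rw [← ENNReal.ofReal_rpow_of_nonneg hB0.le (by positivity), ← ENNReal.rpow_natCast,
      ← ENNReal.rpow_mul]
    congr 1
    push_cast
    field_simp
  have e9 : eLpNorm f 2 volume ^ 2 ≤
      (ENNReal.ofReal (B ^ (1 / (2 * a))) * eLpNorm f 2 (volume.restrict E)) ^ 2 := by
    rw [mul_pow, e8, ← hXY, ← hYY]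
    exact key2
  exact (ENNReal.pow_le_pow_left_iff two_ne_zero).mp e9

end TAM
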