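import Pool.Agent.Helper77.TA.Poly

open MeasureTheory Filter Topology Real Metric FourierTransform
open scoped ENNReal NNReal InnerProductSpace

namespace TAM

open Helper77.TA

variable {V : Type*} [NormedAddCommGroup V] [InnerProductSpace ℝ V] [FiniteDimensional ℝ V]
  [MeasurableSpace V] [BorelSpace V]

/-- The part of `f` travelling in direction `ω`: the inverse Fourier transform of
`exp (- 2 π y (ρ - ξ · ω)) f^(ξ)`. -/
noncomputable def wave (f : L2 V) (ρ y : ℝ) (ω x : V) : ℂ :=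
  ∫ ξ, Complex.exp (2 * π * ⟪ξ, x⟫_ℝ * Complex.I) *
    (((Real.exp (-(2 * π * y * (ρ - ⟪ξ, ω⟫_ℝ))) : ℝ) : ℂ) * (𝓕 f : L2 V) ξ)

/-- The Cauchy density at scale `y`. -/
noncomputable def cauchy (y t : ℝ) : ℝ≥0∞ := ENNReal.ofReal (π⁻¹ * y * (t ^ 2 + y ^ 2)⁻¹)

/-- The local multiplicity at `v` of the weights `p j`, seen along the lines in the directions
`ω j` with the Cauchy density at scale `y`. -/
noncomputable def mult {ι : Type*} [Fintype ι] (p : ι → V → ℝ≥0∞) (ω : ι → V) (y : ℝ) (v : V) :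
    ℝ≥0∞ :=
  ∑ j, ∫⁻ t, p j (v + t • ω j) * cauchy y t

/-- The angle measure is the Cauchy distribution. -/
theorem map_angle {y : ℝ} (hy : 0 < y) :
    angle.map (bdry y) = volume.withDensity (cauchy y) := by
  have hpm : Measurable (cauchy y) := by
    unfold cauchy
    fun_prop
  have hle : ∀ A : Set ℝ, MeasurableSet A →
      volume.withDensity (cauchy y) A ≤ angle.map (bdry y) A := by
    intro A hA
    rw [withDensity_apply _ hA, Measure.map_apply (measurable_bdry y) hA]
    exact angle_preimage_ge hy hA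
  have h1 : volume.withDensity (cauchy y) Set.univ = 1 := by
    rw [withDensity_apply _ MeasurableSet.univ, Measure.restrict_univ]
    exact lintegral_pk hy
  have h2 : IsProbabilityMeasure (volume.withDensity (cauchy y)) := ⟨h1⟩
  have h3 : IsProbabilityMeasure (angle.map (bdry y)) :=
    Measure.isProbabilityMeasure_map (measurable_bdry y).aemeasurable
  ext A hA
  apply le_antisymm _ (hle A hA)
  have h4 := hle Aᶜ hA.compl
  rw [prob_compl_eq_one_sub hA, prob_compl_eq_one_sub hA] at h4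
  have h5 : angle.map (bdry y) A ≤ 1 := prob_le_one
  exact (ENNReal.sub_le_sub_iff_left h5 ENNReal.one_ne_top).mp h4

theorem lintegral_bdry {y : ℝ} (hy : 0 < y) {k : ℝ → ℝ≥0∞} (hk : Measurable k) :
    ∫⁻ θ, k (bdry y θ) ∂angle = ∫⁻ t, k t * cauchy y t := by
  have hpm : Measurable (cauchy y) := by
    unfold cauchy
    fun_prop
  rw [← lintegral_map hk (measurable_bdry y), map_angle hy,
    lintegral_withDensity_eq_lintegral_mul _ hpm hk]
  refine lintegral_congr fun t => ?_
  rw [Pi.mul_apply, mul_comm]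

/-- Jensen's inequality in phase space, for `L¹ ∩ L²` spectra. -/
theorem phase_aux {g : V → ℂ} (h1 : Integrable g) {ι : Type*} [Fintype ι]
    (ω : ι → V) (hω : ∀ j, ‖ω j‖ = 1) {ρ : ℝ} (hball : ∀ ξ, g ξ ≠ 0 → ‖ξ‖ ≤ ρ)
    {E : Set V} (hE : MeasurableSet E) {y a : ℝ} (hy : 0 < y) (ha0 : 0 < a) (ha1 : a < 1)
    (hd : ∀ j, ∀ᵐ x, a ≤ angle.real {θ | x - bdry y θ • ω j ∈ E})
    {p : ι → V → ℝ≥0∞} (hp : ∀ j, Measurable (p j)) :
    ∑ j, ∫⁻ x, p j x * ‖𝓕⁻ (damp g (ω j) ρ y) x‖ₑ ^ 2 ≤ ENNReal.ofReal (exp 1) *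
      ((∫⁻ v in E, mult p ω y v * ‖𝓕⁻ g v‖ₑ ^ 2) ^ a *
        (∫⁻ v, mult p ω y v * ‖𝓕⁻ g v‖ₑ ^ 2) ^ (1 - a)) := by
  have hs : ∀ j ξ, g ξ ≠ 0 → 0 ≤ ρ - ⟪ξ, ω j⟫_ℝ ∧ ρ - ⟪ξ, ω j⟫_ℝ ≤ 2 * ρ := by
    intro j ξ hξ
    have hb := hball ξ hξ
    have h3 := abs_le.mp (abs_real_inner_le_norm ξ (ω j))
    rw [hω j, mul_one] at h3
    constructor <;> linarith [h3.1, h3.2]
  have hk : Measurable fun v => ‖𝓕⁻ g v‖ₑ ^ 2 :=
    ((continuous_fourierInv h1).measurable.enorm).pow_const 2
  have hkE : Measurable (E.indicator fun v => ‖𝓕⁻ g v‖ₑ ^ 2) := hk.indicator hE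
  have hmap : ∀ j, Measurable fun q : V × ℝ => q.1 - bdry y q.2 • ω j := fun j =>
    measurable_fst.sub (((measurable_bdry y).comp measurable_snd).smul_const (ω j))
  have mG : ∀ j {k : V → ℝ≥0∞}, Measurable k →
      Measurable fun x => ∫⁻ θ, k (x - bdry y θ • ω j) ∂angle := fun j k hk =>
    Measurable.lintegral_prod_right' (f := fun q : V × ℝ => k (q.1 - bdry y q.2 • ω j))
      (hk.comp (hmap j))
  -- the change of variables
  have cv : ∀ j {k : V → ℝ≥0∞}, Measurable k →
      ∫⁻ x, p j x * ∫⁻ θ, k (x - bdry y θ • ω j) ∂angle =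
        ∫⁻ v, (∫⁻ t, p j (v + t • ω j) * cauchy y t) * k v := by
    intro j k hk
    have m1 : Measurable (Function.uncurry fun (x : V) (θ : ℝ) =>
        p j x * k (x - bdry y θ • ω j)) :=
      ((hp j).comp measurable_fst).mul (hk.comp (hmap j))
    have m2 : Measurable (Function.uncurry fun (θ : ℝ) (v : V) =>
        p j (v + bdry y θ • ω j) * k v) := by
      have : Measurable fun q : ℝ × V => q.2 + bdry y q.1 • ω j :=
        measurable_snd.add (((measurable_bdry y).comp measurable_fst).smul_const (ω j))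
      exact ((hp j).comp this).mul (hk.comp measurable_snd)
    calc ∫⁻ x, p j x * ∫⁻ θ, k (x - bdry y θ • ω j) ∂angle
        = ∫⁻ x, ∫⁻ θ, p j x * k (x - bdry y θ • ω j) ∂angle := by
          refine lintegral_congr fun x => ?_
          rw [lintegral_const_mul]
          exact hk.comp ((hmap j).comp (measurable_const.prodMk measurable_id))
      _ = ∫⁻ θ, (∫⁻ x, p j x * k (x - bdry y θ • ω j)) ∂angle :=
          lintegral_lintegral_swap m1.aemeasurable
      _ = ∫⁻ θ, (∫⁻ v, p j (v + bdry y θ • ω j) * k v) ∂angle := by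
          refine lintegral_congr fun θ => ?_
          rw [← lintegral_add_right_eq_self _ (bdry y θ • ω j)]
          simp only [add_sub_cancel_right]
      _ = ∫⁻ v, ∫⁻ θ, p j (v + bdry y θ • ω j) * k v ∂angle :=
          lintegral_lintegral_swap m2.aemeasurable
      _ = ∫⁻ v, (∫⁻ t, p j (v + t • ω j) * cauchy y t) * k v := by
          refine lintegral_congr fun v => ?_
          have m3 : Measurable fun t : ℝ => p j (v + t • ω j) :=
            (hp j).comp (measurable_const.add (measurable_id.smul_const (ω j)))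
          rw [← lintegral_bdry hy m3]
          exact lintegral_mul_const (f := fun θ => p j (v + bdry y θ • ω j)) _
            (m3.comp (measurable_bdry y))
  have msum : ∀ {k : V → ℝ≥0∞}, Measurable k →
      ∑ j, ∫⁻ v, (∫⁻ t, p j (v + t • ω j) * cauchy y t) * k v = ∫⁻ v, mult p ω y v * k v := by
    intro k hk
    have m4 : ∀ j, Measurable fun v => (∫⁻ t, p j (v + t • ω j) * cauchy y t) * k v := by
      intro j
      have hpm : Measurable (cauchy y) := by
        unfold cauchy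
        fun_prop
      have : Measurable fun q : V × ℝ => p j (q.1 + q.2 • ω j) * cauchy y q.2 :=
        ((hp j).comp (measurable_fst.add (measurable_snd.smul_const (ω j)))).mul
          (hpm.comp measurable_snd)
      exact (Measurable.lintegral_prod_right' this).mul hk
    rw [← lintegral_finsetSum _ fun j _ => m4 j]
    refine lintegral_congr fun v => ?_
    rw [mult, Finset.sum_mul]
  set X : ι → ℝ≥0∞ := fun j => ∫⁻ x, p j x *
    ∫⁻ θ, E.indicator (fun v => ‖𝓕⁻ g v‖ₑ ^ 2) (x - bdry y θ • ω j) ∂angle with hX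
  set Y : ι → ℝ≥0∞ := fun j => ∫⁻ x, p j x *
    ∫⁻ θ, ‖𝓕⁻ g (x - bdry y θ • ω j)‖ₑ ^ 2 ∂angle with hY
  have step : ∀ j, ∫⁻ x, p j x * ‖𝓕⁻ (damp g (ω j) ρ y) x‖ₑ ^ 2 ≤
      ENNReal.ofReal (exp 1) * (X j ^ a * Y j ^ (1 - a)) := by
    intro j
    set A : V → ℝ≥0∞ := fun x =>
      ∫⁻ θ, E.indicator (fun v => ‖𝓕⁻ g v‖ₑ ^ 2) (x - bdry y θ • ω j) ∂angle with hA
    set B : V → ℝ≥0∞ := fun x => ∫⁻ θ, ‖𝓕⁻ g (x - bdry y θ • ω j)‖ₑ ^ 2 ∂angle with hB
    have mA : Measurable A := mG j hkE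
    have mB : Measurable B := mG j hk
    calc ∫⁻ x, p j x * ‖𝓕⁻ (damp g (ω j) ρ y) x‖ₑ ^ 2
        ≤ ∫⁻ x, ENNReal.ofReal (exp 1) * ((p j x * A x) ^ a * (p j x * B x) ^ (1 - a)) := by
          apply lintegral_mono_ae
          filter_upwards [hd j] with x hx
          have e1 := line_jensen h1 (hs j) hE hy ha0 ha1 x hx
          have e2 : p j x ^ a * p j x ^ (1 - a) = p j x := by
            rcases eq_or_ne (p j x) 0 with h0 | h0
            · rw [h0, ENNReal.zero_rpow_of_pos ha0, zero_mul]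
            rcases eq_or_ne (p j x) ∞ with h9 | h9
            · rw [h9, ENNReal.top_rpow_of_pos ha0, ENNReal.top_rpow_of_pos (by linarith),
                ENNReal.top_mul_top]
            · rw [← ENNReal.rpow_add _ _ h0 h9]
              simp
          calc p j x * ‖𝓕⁻ (damp g (ω j) ρ y) x‖ₑ ^ 2 ≤
              p j x * (ENNReal.ofReal (exp 1) * (A x ^ a * B x ^ (1 - a))) := by gcongr
            _ = ENNReal.ofReal (exp 1) *
                ((p j x ^ a * A x ^ a) * (p j x ^ (1 - a) * B x ^ (1 - a))) := by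
                nth_rewrite 1 [← e2]
                ring
            _ = _ := by
                rw [ENNReal.mul_rpow_of_nonneg _ _ ha0.le,
                  ENNReal.mul_rpow_of_nonneg _ _ (by linarith : (0 : ℝ) ≤ 1 - a)]
      _ = ENNReal.ofReal (exp 1) * ∫⁻ x, ((p j x * A x) ^ a * (p j x * B x) ^ (1 - a)) := by
          rw [lintegral_const_mul]
          exact (((hp j).mul mA).pow_const _).mul (((hp j).mul mB).pow_const _)
      _ ≤ ENNReal.ofReal (exp 1) * (X j ^ a * Y j ^ (1 - a)) := by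
          gcongr
          exact ENNReal.lintegral_mul_norm_pow_le ((hp j).mul mA).aemeasurable
            ((hp j).mul mB).aemeasurable ha0.le (by linarith) (by linarith)
  have hsum : ∑ j, X j ^ a * Y j ^ (1 - a) ≤ (∑ j, X j) ^ a * (∑ j, Y j) ^ (1 - a) := by
    let _ : MeasurableSpace ι := ⊤
    have : MeasurableSingletonClass ι := ⟨fun _ => trivial⟩
    have h5 := ENNReal.lintegral_mul_norm_pow_le (μ := (Measure.count : Measure ι))
      (f := X) (g := Y) (Measurable.of_discrete).aemeasurable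
      (Measurable.of_discrete).aemeasurable ha0.le (by linarith : (0 : ℝ) ≤ 1 - a) (by linarith)
    rw [lintegral_count, lintegral_count, lintegral_count, tsum_fintype, tsum_fintype,
      tsum_fintype] at h5
    exact h5
  calc ∑ j, ∫⁻ x, p j x * ‖𝓕⁻ (damp g (ω j) ρ y) x‖ₑ ^ 2
      ≤ ∑ j, ENNReal.ofReal (exp 1) * (X j ^ a * Y j ^ (1 - a)) :=
        Finset.sum_le_sum fun j _ => step j
    _ = ENNReal.ofReal (exp 1) * ∑ j, X j ^ a * Y j ^ (1 - a) := by rw [Finset.mul_sum]
    _ ≤ ENNReal.ofReal (exp 1) * ((∑ j, X j) ^ a * (∑ j, Y j) ^ (1 - a)) := by gcongr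
    _ = _ := by
        have eX : ∑ j, X j = ∫⁻ v in E, mult p ω y v * ‖𝓕⁻ g v‖ₑ ^ 2 := by
          rw [← lintegral_indicator hE]
          have e3 : ∀ v, E.indicator (fun v => mult p ω y v * ‖𝓕⁻ g v‖ₑ ^ 2) v =
              mult p ω y v * E.indicator (fun v => ‖𝓕⁻ g v‖ₑ ^ 2) v := by
            intro v
            by_cases hv : v ∈ E
            · rw [Set.indicator_of_mem hv, Set.indicator_of_mem hv]
            · rw [Set.indicator_of_notMem hv, Set.indicator_of_notMem hv, mul_zero]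
          simp_rw [e3]
          rw [← msum hkE]
          exact Finset.sum_congr rfl fun j _ => cv j hkE
        have eY : ∑ j, Y j = ∫⁻ v, mult p ω y v * ‖𝓕⁻ g v‖ₑ ^ 2 := by
          rw [← msum hk]
          exact Finset.sum_congr rfl fun j _ => cv j hk
        rw [eX, eY]

end TAM
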