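import Pool.Agent.TAM.Mult

open MeasureTheory Filter Topology Real Metric FourierTransform
open scoped ENNReal NNReal InnerProductSpace

namespace TAM

open Helper77.TA

variable {V : Type*} [NormedAddCommGroup V] [InnerProductSpace ℝ V] [FiniteDimensional ℝ V]
  [MeasurableSpace V] [BorelSpace V]

/-- The caps of radius `b (1 + R) ^ (-1/2)` around the directions `ω j` in the annulus
`R ≤ |ξ| ≤ R + h`. -/
def caps {ι : Type*} (R h b : ℝ) (ω : ι → V) : Set V :=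
  {ξ | R ≤ ‖ξ‖ ∧ ‖ξ‖ ≤ R + h ∧
    ∃ j, ‖(‖ξ‖⁻¹ : ℝ) • ξ - ω j‖ ≤ b * (1 + R) ^ (-(1 / 2) : ℝ)}

/-- The weighted mass of the waves of `f`. -/
noncomputable def waveMass {ι : Type*} [Fintype ι] (p : ι → V → ℝ≥0∞) (f : L2 V) (ρ y : ℝ)
    (ω : ι → V) : ℝ≥0∞ :=
  ∑ j, ∫⁻ x, p j x * ‖wave f ρ y (ω j) x‖ₑ ^ 2

/-- The mass of `f` on `E`, weighted with the local multiplicity. -/
noncomputable def multMass {ι : Type*} [Fintype ι] (p : ι → V → ℝ≥0∞) (f : L2 V) (y : ℝ)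
    (ω : ι → V) (E : Set V) : ℝ≥0∞ :=
  ∫⁻ v in E, mult p ω y v * ‖f v‖ₑ ^ 2

/-- A measurable subset of full measure which is still thick. -/
theorem exists_thick {ι : Type*} [Fintype ι] (ω : ι → V) {E : Set V}
    (hE : NullMeasurableSet E) {L θ a : ℝ} (hL : 0 < L) (ha : 0 < a) (haθ : a < θ)
    (hthick : ∀ j, ThickAlong E L θ (ω j)) :
    ∃ E' : Set V, MeasurableSet E' ∧ E' =ᵐ[volume] E ∧
      ∀ j, ∀ᵐ x, a ≤ angle.real {t | x - bdry (2 * L * θ / (θ - a)) t • ω j ∈ E'} := by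
  obtain ⟨E', hE'E, hE', hae⟩ := hE.exists_measurable_subset_ae_eq
  have hnull : volume (E \ E') = 0 := ae_le_set.mp hae.symm.le
  refine ⟨E', hE', hae, ?_⟩
  intro j
  apply thick_to_angle hE' hL ha haθ
  filter_upwards [null_section hnull (ω j)] with x hx
  refine (hthick j x).trans ?_
  apply measure_mono_ae
  filter_upwards [hx] with t ht h
  refine ⟨h.1, ?_⟩
  by_contra hcon
  exact ht ⟨h.2, hcon⟩

end TAM
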